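import Pool.Agent.N869.GK.StmX

/-!
# Leaf X-DBL of project GK: doubling near infinity
-/

set_option autoImplicit false

open scoped Classical

namespace Pool.Agent.N273.GK.DBL

open WeierstrassCurve
open Pool.Agent.N869.GK.X

/-- a sum with a dominant term -/
theorem dom {p : ℕ} [Fact p.Prime] {a b : ℚ_[p]} (h : ‖b‖ < ‖a‖) : ‖a + b‖ = ‖a‖ := by
  rw [IsUltrametricDist.norm_add_eq_max_of_norm_ne_norm h.ne', max_eq_left h.le]

theorem dbl_x {K : Type} [Field K] (e1 e2 e3 x y : K) (hy : y ≠ 0) (h2 : (2 : K) ≠ 0)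
    (hE : (Wk e1 e2 e3).toAffine.Equation x y) :
    (Wk e1 e2 e3).toAffine.addX x x ((Wk e1 e2 e3).toAffine.slope x x y y) * (4 * y ^ 2) =
      x ^ 4 + (-(2 * (e1 * e2 + e1 * e3 + e2 * e3) * x ^ 2) + 8 * (e1 * e2 * e3) * x +
        ((e1 * e2 + e1 * e3 + e2 * e3) ^ 2 - 4 * (e1 + e2 + e3) * (e1 * e2 * e3))) := by
  have hne : y ≠ (Wk e1 e2 e3).toAffine.negY x y := by
    intro h
    have h3 : (Wk e1 e2 e3).toAffine.negY x y = -y := by
      simp [Affine.negY, Wk]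
    rw [h3] at h
    have h4 : 2 * y = 0 := by linear_combination h
    rcases mul_eq_zero.1 h4 with h5 | h5
    · exact h2 h5
    · exact hy h5
  have h3 : (Wk e1 e2 e3).toAffine.negY x y = -y := by
    simp [Affine.negY, Wk]
  have h4 : (2 * y) ≠ 0 := mul_ne_zero h2 hy
  have hl : (Wk e1 e2 e3).toAffine.slope x x y y * (2 * y) =
      3 * x ^ 2 + 2 * (-(e1 + e2 + e3)) * x + (e1 * e2 + e1 * e3 + e2 * e3) := by
    rw [Affine.slope_of_Y_ne rfl hne, h3]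
    have h5 : y - -y = 2 * y := by ring
    rw [h5]
    simp only [Wk]
    rw [div_mul_cancel₀ _ h4]
    ring
  generalize (Wk e1 e2 e3).toAffine.slope x x y y = l at hl ⊢
  rw [Affine.equation_iff] at hE
  simp only [Wk, Affine.addX] at hE ⊢
  linear_combination (l * (2 * y) + (3 * x ^ 2 + 2 * (-(e1 + e2 + e3)) * x +
    (e1 * e2 + e1 * e3 + e2 * e3))) * hl - 4 * (-(e1 + e2 + e3) + 2 * x) * hE

/-- DBL -/
theorem t_DBL : S_DBL := by
  intro p _ e1 e2 e3 h12 h13 h23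
  refine ⟨1, le_rfl, ?_⟩
  intro x y h hx
  have hE : (Wk (e1 : ℚ_[p]) e2 e3).toAffine.Equation x y := h.1
  have hE2 : y ^ 2 = (x - e1) * (x - e2) * (x - e3) := by
    have h3 := (Affine.equation_iff _ _).1 hE
    simp only [Wk] at h3
    linear_combination h3
  have hn : ∀ e : ℤ, ‖x - (e : ℚ_[p])‖ = ‖x‖ := by
    intro e
    rw [sub_eq_add_neg]
    apply dom
    rw [norm_neg]
    exact (Padic.norm_int_le_one e).trans_lt hx
  have hy2 : ‖y‖ ^ 2 = ‖x‖ ^ 3 := by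
    rw [← norm_pow, hE2, norm_mul, norm_mul, hn, hn, hn]
    ring
  have hx0 : 0 < ‖x‖ := by linarith
  have hy : y ≠ 0 := by
    intro h0
    rw [h0, norm_zero] at hy2
    have : 0 < ‖x‖ ^ 3 := by positivity
    nlinarith
  have h2 : (2 : ℚ_[p]) ≠ 0 := two_ne_zero
  have hne : y ≠ (Wk (e1 : ℚ_[p]) e2 e3).toAffine.negY x y := by
    intro h
    have h3 : (Wk (e1 : ℚ_[p]) e2 e3).toAffine.negY x y = -y := by
      simp [Affine.negY, Wk]
    rw [h3] at h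
    have h4 : 2 * y = 0 := by linear_combination h
    rcases mul_eq_zero.1 h4 with h5 | h5
    · exact h2 h5
    · exact hy h5
  refine ⟨_, _, _, Affine.Point.add_self_of_Y_ne hne, ?_⟩
  have hD := dbl_x (e1 : ℚ_[p]) e2 e3 x y hy h2 hE
  have hnum : ‖x ^ 4 + (-(2 * ((e1 : ℚ_[p]) * e2 + e1 * e3 + e2 * e3) * x ^ 2) +
      8 * ((e1 : ℚ_[p]) * e2 * e3) * x +
        (((e1 : ℚ_[p]) * e2 + e1 * e3 + e2 * e3) ^ 2 -
          4 * ((e1 : ℚ_[p]) + e2 + e3) * (e1 * e2 * e3)))‖ = ‖x‖ ^ 4 := by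
    have hI : ∀ m : ℤ, ‖(m : ℚ_[p])‖ ≤ 1 := fun m => Padic.norm_int_le_one m
    have hb1 : ‖-(2 * ((e1 : ℚ_[p]) * e2 + e1 * e3 + e2 * e3) * x ^ 2)‖ < ‖x‖ ^ 4 := by
      have h5 := hI (2 * (e1 * e2 + e1 * e3 + e2 * e3))
      push_cast at h5
      rw [norm_neg, norm_mul, norm_pow]
      calc _ ≤ 1 * ‖x‖ ^ 2 := by gcongr
        _ < ‖x‖ ^ 4 := by
          rw [one_mul]
          exact pow_lt_pow_right₀ hx (by norm_num)
    have hb2 : ‖8 * ((e1 : ℚ_[p]) * e2 * e3) * x‖ < ‖x‖ ^ 4 := by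
      have h5 := hI (8 * (e1 * e2 * e3))
      push_cast at h5
      rw [norm_mul]
      calc _ ≤ 1 * ‖x‖ := by gcongr
        _ < ‖x‖ ^ 4 := by
          rw [one_mul]
          exact lt_self_pow₀ hx (by norm_num)
    have hb3 : ‖((e1 : ℚ_[p]) * e2 + e1 * e3 + e2 * e3) ^ 2 -
          4 * ((e1 : ℚ_[p]) + e2 + e3) * (e1 * e2 * e3)‖ < ‖x‖ ^ 4 := by
      have h5 := hI ((e1 * e2 + e1 * e3 + e2 * e3) ^ 2 - 4 * (e1 + e2 + e3) * (e1 * e2 * e3))
      push_cast at h5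
      exact h5.trans_lt (one_lt_pow₀ hx (by norm_num))
    have h6 := dom (p := p) (a := x ^ 4) (b := -(2 * ((e1 : ℚ_[p]) * e2 + e1 * e3 + e2 * e3) * x ^ 2) +
      8 * ((e1 : ℚ_[p]) * e2 * e3) * x +
        (((e1 : ℚ_[p]) * e2 + e1 * e3 + e2 * e3) ^ 2 -
          4 * ((e1 : ℚ_[p]) + e2 + e3) * (e1 * e2 * e3))) (by
      rw [norm_pow]
      refine (IsUltrametricDist.norm_add_le_max _ _).trans_lt (max_lt ?_ hb3)
      exact (IsUltrametricDist.norm_add_le_max _ _).trans_lt (max_lt hb1 hb2))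
    rw [h6, norm_pow]
  have h7 := congrArg norm hD
  rw [hnum, norm_mul, norm_mul, norm_pow, hy2] at h7
  have h8 : 0 < ‖x‖ ^ 3 := by positivity
  apply mul_right_cancel₀ h8.ne'
  rw [mul_assoc, h7]
  ring

end Pool.Agent.N273.GK.DBL
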