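import Pool.Agent.N332.GK.Defs

/-!
# Leaf A3 of project GK: the inequality for words

The statements `WIneq C θ` and `WordIneq C θ` of `Stm.lean` are unfolded.
-/

set_option autoImplicit false

namespace Pool.Agent.N273.GK.Word

open Finset

theorem emb2 {N : ℕ} (f : Fin N → Fin N → ℝ) (hf : ∀ a b, 0 ≤ f a b) :
    ∑ e : Fin 2 ↪ Fin N, f (e 0) (e 1) ≤ ∑ a, ∑ b, f a b := by
  have h1 : ∑ e : Fin 2 ↪ Fin N, f (e 0) (e 1) =
      ∑ p ∈ univ.image (fun e : Fin 2 ↪ Fin N => (e 0, e 1)), f p.1 p.2 := by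
    rw [Finset.sum_image]
    intro e _ e' _ h
    simp only [Prod.mk.injEq] at h
    ext i
    fin_cases i
    · simp [h.1]
    · simp [h.2]
  rw [h1, ← Fintype.sum_prod_type']
  exact Finset.sum_le_sum_of_subset_of_nonneg (subset_univ _) fun p _ _ => hf _ _

theorem emb4 {N : ℕ} (f : Fin N → Fin N → Fin N → Fin N → ℝ) (hf : ∀ a b c d, 0 ≤ f a b c d) :
    ∑ e : Fin 4 ↪ Fin N, f (e 0) (e 1) (e 2) (e 3) ≤ ∑ a, ∑ b, ∑ c, ∑ d, f a b c d := by
  have h1 : ∑ e : Fin 4 ↪ Fin N, f (e 0) (e 1) (e 2) (e 3) =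
      ∑ p ∈ univ.image (fun e : Fin 4 ↪ Fin N => (e 0, e 1, e 2, e 3)),
        f p.1 p.2.1 p.2.2.1 p.2.2.2 := by
    rw [Finset.sum_image]
    intro e _ e' _ h
    simp only [Prod.mk.injEq] at h
    ext i
    fin_cases i
    · simp [h.1]
    · simp [h.2.1]
    · simp [h.2.2.1]
    · simp [h.2.2.2]
  have h2 : ∑ a, ∑ b, ∑ c, ∑ d, f a b c d =
      ∑ p : Fin N × Fin N × Fin N × Fin N, f p.1 p.2.1 p.2.2.1 p.2.2.2 := by
    rw [Fintype.sum_prod_type]
    refine sum_congr rfl fun a _ => ?_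
    rw [Fintype.sum_prod_type]
    refine sum_congr rfl fun b _ => ?_
    rw [Fintype.sum_prod_type]
  rw [h1, h2]
  exact Finset.sum_le_sum_of_subset_of_nonneg (subset_univ _) fun p _ _ => hf _ _ _ _

section
variable {Γ : Type*} [DecidableEq Γ] {C : Finset Γ} {N : ℕ} {W : Fin N → Γ}

/-- multiplicity of `c` in the word `W` -/
def mm (W : Fin N → Γ) (c : Γ) : ℝ := ∑ i, if W i = c then (1 : ℝ) else 0

theorem mm_nonneg (c : Γ) : 0 ≤ mm W c := by
  unfold mm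
  refine Finset.sum_nonneg fun i _ => ?_
  split_ifs <;> norm_num

theorem key (hW : ∀ i, W i ∈ C) (F : Γ → ℝ) : ∑ i, F (W i) = ∑ c ∈ C, mm W c * F c := by
  have h1 : ∀ c ∈ C, mm W c * F c = ∑ i, if W i = c then F c else 0 := by
    intro c _
    unfold mm
    rw [Finset.sum_mul]
    refine sum_congr rfl fun i _ => ?_
    split_ifs <;> simp
  rw [sum_congr rfl h1, Finset.sum_comm]
  refine sum_congr rfl fun i _ => ?_
  rw [Finset.sum_ite_eq, if_pos (hW i)]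

theorem key4 (hW : ∀ i, W i ∈ C) (F : Γ → Γ → Γ → Γ → ℝ) :
    ∑ a, ∑ b, ∑ c, ∑ d, F (W a) (W b) (W c) (W d) =
      ∑ s ∈ C, ∑ t ∈ C, ∑ u ∈ C, ∑ v ∈ C,
        mm W s * (mm W t * (mm W u * (mm W v * F s t u v))) := by
  rw [key hW (fun s => ∑ b, ∑ c, ∑ d, F s (W b) (W c) (W d))]
  refine sum_congr rfl fun s _ => ?_
  rw [key hW (fun t => ∑ c, ∑ d, F s t (W c) (W d)), Finset.mul_sum]
  refine sum_congr rfl fun t _ => ?_
  rw [key hW (fun u => ∑ d, F s t u (W d)), Finset.mul_sum, Finset.mul_sum]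
  refine sum_congr rfl fun u _ => ?_
  rw [key hW (fun v => F s t u v), Finset.mul_sum, Finset.mul_sum, Finset.mul_sum]

end

/-- A3, with `WIneq C θ` and `WordIneq C θ` unfolded -/
theorem word {Γ : Type*} [AddCommGroup Γ] [DecidableEq Γ] {C : Finset Γ} {θ : Γ → Γ → ℝ}
    (hθ : ∀ s t, 0 ≤ θ s t) (_hneg : ∀ s ∈ C, -s ∈ C)
    (HW : ∀ m : Γ → ℝ, (∀ s, 0 ≤ m s) →
      2 * (∑ s ∈ C, m s) ^ 2 * ∑ s ∈ C, m s * m (-s) +
        64 / 27 * ∑ s ∈ C, ∑ t ∈ C, ∑ u ∈ C, ∑ v ∈ C,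
          (if s + t + u + v = 0 then θ s t * θ u v * (m s * m t * (m u * m v)) else 0) ≤
      (∑ s ∈ C, m s) ^ 4) :
    ∀ (j : ℕ), 2 ≤ j → ∀ W : Fin (2 * j) → Γ, (∀ i, W i ∈ C) →
      1 / (2 * (j : ℝ) ^ 2) *
          (∑ e : Fin 2 ↪ Fin (2 * j), if W (e 0) + W (e 1) = 0 then (1:ℝ) else 0) +
        64 / 27 / (2 * (j : ℝ)) ^ 4 * (∑ e : Fin 4 ↪ Fin (2 * j),
          if W (e 0) + W (e 1) + W (e 2) + W (e 3) = 0 then
            θ (W (e 0)) (W (e 1)) * θ (W (e 2)) (W (e 3)) else 0) ≤ 1 := by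
  intro j hj W hW
  have hw := HW (mm W) (fun s => mm_nonneg s)
  have hS : ∑ s ∈ C, mm W s = 2 * (j : ℝ) := by
    have h1 := key hW (fun _ => (1 : ℝ))
    simp only [mul_one] at h1
    rw [← h1]
    simp
  have hP : (∑ e : Fin 2 ↪ Fin (2 * j), if W (e 0) + W (e 1) = 0 then (1:ℝ) else 0) ≤
      ∑ s ∈ C, mm W s * mm W (-s) := by
    have h1 := emb2 (N := 2 * j) (fun a b => if W a + W b = 0 then (1:ℝ) else 0)
      (fun a b => by split_ifs <;> norm_num)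
    refine h1.trans (le_of_eq ?_)
    rw [← key hW (fun s => mm W (-s))]
    refine sum_congr rfl fun a _ => ?_
    unfold mm
    refine sum_congr rfl fun b _ => ?_
    have h2 : W a + W b = 0 ↔ W b = - W a := by
      rw [add_comm, add_eq_zero_iff_eq_neg]
    simp only [h2]
  have hQ : (∑ e : Fin 4 ↪ Fin (2 * j),
        if W (e 0) + W (e 1) + W (e 2) + W (e 3) = 0 then
          θ (W (e 0)) (W (e 1)) * θ (W (e 2)) (W (e 3)) else 0) ≤
      ∑ s ∈ C, ∑ t ∈ C, ∑ u ∈ C, ∑ v ∈ C,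
        (if s + t + u + v = 0 then θ s t * θ u v *
          (mm W s * mm W t * (mm W u * mm W v)) else 0) := by
    have h1 := emb4 (N := 2 * j) (fun a b c d => if W a + W b + W c + W d = 0 then
      θ (W a) (W b) * θ (W c) (W d) else 0)
      (fun a b c d => by
        split_ifs
        · exact mul_nonneg (hθ _ _) (hθ _ _)
        · exact le_rfl)
    refine h1.trans (le_of_eq ?_)
    rw [key4 hW (fun s t u v => if s + t + u + v = 0 then θ s t * θ u v else 0)]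
    refine sum_congr rfl fun s _ => sum_congr rfl fun t _ => sum_congr rfl fun u _ =>
      sum_congr rfl fun v _ => ?_
    split_ifs
    · ring
    · simp
  have hj0 : (0 : ℝ) < j := by
    have : (2 : ℝ) ≤ j := by exact_mod_cast hj
    linarith
  rw [hS] at hw
  generalize (∑ e : Fin 2 ↪ Fin (2 * j), if W (e 0) + W (e 1) = 0 then (1:ℝ) else 0) = A at hP ⊢
  generalize (∑ e : Fin 4 ↪ Fin (2 * j),
        if W (e 0) + W (e 1) + W (e 2) + W (e 3) = 0 then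
          θ (W (e 0)) (W (e 1)) * θ (W (e 2)) (W (e 3)) else 0) = B at hQ ⊢
  have h5 : 2 * (2 * (j : ℝ)) ^ 2 * A + 64 / 27 * B ≤ (2 * (j : ℝ)) ^ 4 := by
    refine le_trans ?_ hw
    gcongr
  have h6 : 1 / (2 * (j : ℝ) ^ 2) * A + 64 / 27 / (2 * (j : ℝ)) ^ 4 * B =
      (2 * (2 * (j : ℝ)) ^ 2 * A + 64 / 27 * B) / (2 * (j : ℝ)) ^ 4 := by
    field_simp
  rw [h6, div_le_one (by positivity)]
  exact h5

end Pool.Agent.N273.GK.Word
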